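import Mathlib

/-!
# A space with a selectively highly divergent Pixley-Roy hyperspace which is not SHD

`X` is the `Σ`-product of uncountably many copies of the discrete two-point space: it is
sequentially compact, while its Pixley-Roy hyperspace is selectively highly divergent.
-/

open Filter Topology Set

namespace Pool.Agent.Results.MP_f85c9e_gt.NotDescending

/-- `X` is selectively highly divergent: for every sequence of non-empty open sets `U n` one can
choose points `x n ∈ U n` such that no subsequence of `x` converges to any point of `X`. -/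
def SHD (X : Type*) [TopologicalSpace X] : Prop :=
  ∀ U : ℕ → Set X, (∀ n, IsOpen (U n)) → (∀ n, (U n).Nonempty) →
    ∃ x : ℕ → X, (∀ n, x n ∈ U n) ∧
      ∀ φ : ℕ → ℕ, StrictMono φ → ∀ a : X, ¬ Tendsto (x ∘ φ) atTop (𝓝 a)

/-- The set of all non-empty finite subsets of `X`. -/
def PR (X : Type*) : Type _ := {A : Set X // A.Nonempty ∧ A.Finite}

/-- The basic set `[F, V]` of all non-empty finite `H` with `F ⊆ H ⊆ V`. -/
def box {X : Type*} (F V : Set X) : Set (PR X) := {H | F ⊆ H.1 ∧ H.1 ⊆ V}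

/-- The Pixley-Roy topology: a set `W` of non-empty finite sets is open exactly if for each
`F ∈ W` there is an open `V ⊇ F` in `X` with `[F, V] ⊆ W`. -/
instance (X : Type*) [TopologicalSpace X] : TopologicalSpace (PR X) where
  IsOpen W := ∀ F ∈ W, ∃ V : Set X, IsOpen V ∧ F.1 ⊆ V ∧ box F.1 V ⊆ W
  isOpen_univ := fun F _ => ⟨Set.univ, isOpen_univ, Set.subset_univ _, Set.subset_univ _⟩
  isOpen_inter := by
    rintro W₁ W₂ h₁ h₂ F ⟨hF₁, hF₂⟩
    obtain ⟨V₁, hV₁, hFV₁, hb₁⟩ := h₁ F hF₁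
    obtain ⟨V₂, hV₂, hFV₂, hb₂⟩ := h₂ F hF₂
    refine ⟨V₁ ∩ V₂, hV₁.inter hV₂, Set.subset_inter hFV₁ hFV₂, ?_⟩
    rintro H ⟨hFH, hHV⟩
    exact ⟨hb₁ ⟨hFH, hHV.trans Set.inter_subset_left⟩, hb₂ ⟨hFH, hHV.trans Set.inter_subset_right⟩⟩
  isOpen_sUnion := by
    rintro S hS F ⟨W, hWS, hFW⟩
    obtain ⟨V, hV, hFV, hb⟩ := hS W hWS F hFW
    exact ⟨V, hV, hFV, hb.trans (Set.subset_sUnion_of_mem hWS)⟩

/-- Every set `[F, V]` with `V` open is open. -/
theorem isOpen_box {X : Type*} [TopologicalSpace X] (F : Set X) {V : Set X} (hV : IsOpen V) :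
    IsOpen (box F V) := by
  rintro H ⟨hFH, hHV⟩
  exact ⟨V, hV, hHV, fun G hG => ⟨hFH.trans hG.1, hG.2⟩⟩

/-- The sets `[F, V]`, with `V` open and `F ⊆ V`, form a local base at `F`. -/
theorem hasBasis_nhds {X : Type*} [TopologicalSpace X] (F : PR X) :
    (𝓝 F).HasBasis (fun V : Set X => IsOpen V ∧ F.1 ⊆ V) (fun V => box F.1 V) := by
  refine ⟨fun W => ⟨fun hW => ?_, ?_⟩⟩
  · obtain ⟨W', hW'W, hW', hF⟩ := mem_nhds_iff.1 hW
    obtain ⟨V, hV, hFV, hb⟩ := hW' F hF
    exact ⟨V, ⟨hV, hFV⟩, hb.trans hW'W⟩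
  · rintro ⟨V, ⟨hV, hFV⟩, hb⟩
    exact mem_of_superset ((isOpen_box F.1 hV).mem_nhds ⟨subset_rfl, hFV⟩) hb

/-- The `Σ`-product of continuum many copies of `{0, 1}`. -/
abbrev X : Type := {x : ℝ → Bool // {i | x i = true}.Countable}

/-- Every sequence in `X` has a convergent subsequence. -/
theorem exists_subseq (x : ℕ → X) :
    ∃ φ : ℕ → ℕ, StrictMono φ ∧ ∃ a : X, Tendsto (x ∘ φ) atTop (𝓝 a) := by
  classical
  set S : Set ℝ := ⋃ n, {i | (x n).1 i = true} with hS
  have hSc : S.Countable := countable_iUnion fun n => (x n).2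
  have : Countable S := hSc.to_subtype
  obtain ⟨b, _, φ, hφ, hb⟩ := (isSeqCompact_univ (X := S → Bool)).subseq_of_frequently_in
    (x := fun n i => (x n).1 i.1) (Frequently.of_forall fun _ => mem_univ _)
  refine ⟨φ, hφ, ⟨fun i => if h : i ∈ S then b ⟨i, h⟩ else false, ?_⟩, ?_⟩
  · refine hSc.mono fun i hi => ?_
    by_contra h
    simp [h] at hi
  · rw [tendsto_subtype_rng, tendsto_pi_nhds]
    intro i
    by_cases h : i ∈ S
    · have h1 := (tendsto_pi_nhds.1 hb) ⟨i, h⟩
      simpa [h] using h1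
    · simp only [h, dite_false]
      refine tendsto_const_nhds.congr fun n => ?_
      by_contra hcon
      refine h (mem_iUnion.2 ⟨φ n, ?_⟩)
      show (x (φ n)).1 i = true
      cases h2 : (x (φ n)).1 i
      · exact absurd (by simp [Function.comp, h2]) hcon
      · rfl

theorem not_SHD : ¬ SHD X := by
  intro h
  have : Nonempty X := ⟨⟨fun _ => false, by simp⟩⟩
  obtain ⟨x, _, hx⟩ := h (fun _ => univ) (fun _ => isOpen_univ) (fun _ => univ_nonempty)
  obtain ⟨φ, hφ, a, ha⟩ := exists_subseq x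
  exact hx φ hφ a ha

/-- A neighbourhood in `X` contains all points which agree with the centre on a finite set. -/
theorem exists_finite_agree {V : Set X} (hV : IsOpen V) {p : X} (hp : p ∈ V) :
    ∃ A : Set ℝ, A.Finite ∧ ∀ y : X, (∀ i ∈ A, y.1 i = p.1 i) → y ∈ V := by
  obtain ⟨O, hO, rfl⟩ := isOpen_induced_iff.1 hV
  obtain ⟨F, u, hu, hsub⟩ := isOpen_pi_iff.1 hO p.1 hp
  refine ⟨F, F.finite_toSet, fun y hy => hsub fun i hi => ?_⟩
  rw [hy i hi]
  exact (hu i hi).2

theorem SHD_PR : SHD (PR X) := by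
  classical
  intro U hU hne
  choose F hF using hne
  have h1 : ∀ n, ∃ V : Set X, IsOpen V ∧ (F n).1 ⊆ V ∧ box (F n).1 V ⊆ U n := fun n =>
    hU n (F n) (hF n)
  choose V hVo hFV hbox using h1
  have h2 : ∀ n, ∃ p : X, p ∈ (F n).1 := fun n => (F n).2.1
  choose p hp using h2
  have h3 : ∀ n, ∃ A : Set ℝ, A.Finite ∧ ∀ y : X, (∀ i ∈ A, y.1 i = (p n).1 i) → y ∈ V n :=
    fun n => exists_finite_agree (hVo n) (hFV n (hp n))
  choose A hA hAV using h3
  -- the countable set of forbidden coordinates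
  set C : Set ℝ := (⋃ n, A n) ∪ ⋃ n, ⋃ q ∈ (F n).1, {i | q.1 i = true} with hC
  have hCc : C.Countable := by
    refine (countable_iUnion fun n => (hA n).countable).union (countable_iUnion fun n => ?_)
    exact (F n).2.2.countable.biUnion fun q _ => q.2
  have hinf : Cᶜ.Infinite := fun hfin => Cardinal.not_countable_real
    (by rw [← union_compl_self C]; exact hCc.union hfin.countable)
  set e : ℕ → ℝ := fun n => (hinf.natEmbedding _ n : ℝ) with he
  have heinj : Function.Injective e := Subtype.val_injective.comp (hinf.natEmbedding _).injective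
  have heC : ∀ n, e n ∉ C := fun n => (hinf.natEmbedding _ n).2
  have heA : ∀ n m, e n ∉ A m := fun n m h => heC n (Or.inl (mem_iUnion.2 ⟨m, h⟩))
  have heF : ∀ n m, ∀ q ∈ (F m).1, q.1 (e n) = false := by
    intro n m q hq
    by_contra hcon
    exact heC n (Or.inr (mem_iUnion.2 ⟨m, mem_biUnion hq (by simpa using hcon)⟩))
  -- the added points
  let y : ℕ → X := fun n => ⟨fun i => if i = e 0 ∨ i = e (n + 1) then true else (p n).1 i, by
    refine ((p n).2.insert (e 0)).insert (e (n + 1)) |>.mono fun i hi => ?_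
    by_cases h : i = e 0 ∨ i = e (n + 1)
    · rcases h with h | h
      · exact Or.inr (Or.inl h)
      · exact Or.inl h
    · simp only [mem_ofPred_eq, h, if_false] at hi
      exact Or.inr (Or.inr hi)⟩
  have hy0 : ∀ n, (y n).1 (e 0) = true := fun n => by simp [y]
  have hyn : ∀ n, (y n).1 (e (n + 1)) = true := fun n => by simp [y]
  have hyne : ∀ n m, n ≠ m → y n ≠ y m := by
    intro n m hnm h
    have h4 := hyn n
    rw [h] at h4
    have h5 : ¬ (e (n + 1) = e 0 ∨ e (n + 1) = e (m + 1)) := by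
      rintro (h6 | h6)
      · exact absurd (heinj h6) (Nat.succ_ne_zero n)
      · exact hnm (Nat.succ_injective (heinj h6))
    have h6 : (y m).1 (e (n + 1)) = (p m).1 (e (n + 1)) := if_neg h5
    rw [h6, heF (n + 1) m (p m) (hp m)] at h4
    exact absurd h4 (by decide)
  have hyV : ∀ n, y n ∈ V n := by
    intro n
    refine hAV n (y n) fun i hi => if_neg ?_
    rintro (h | h)
    · exact heA 0 n (h ▸ hi)
    · exact heA (n + 1) n (h ▸ hi)
  refine ⟨fun n => ⟨insert (y n) (F n).1, insert_nonempty _ _, (F n).2.2.insert _⟩, ?_, ?_⟩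
  · intro n
    exact hbox n ⟨subset_insert _ _, insert_subset (hyV n) (hFV n)⟩
  · intro φ hφ H hlim
    have hlim' := hlim
    rw [(hasBasis_nhds H).tendsto_right_iff] at hlim'
    have ha := hlim' univ ⟨isOpen_univ, subset_univ _⟩
    obtain ⟨k0, hk0⟩ := eventually_atTop.1 ha
    have hcont : Continuous fun x : X => x.1 (e 0) :=
      (continuous_apply (e 0)).comp continuous_subtype_val
    have hVopen : IsOpen {x : X | x.1 (e 0) = false} :=
      (isOpen_discrete ({false} : Set Bool)).preimage hcont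
    have hHV : H.1 ⊆ {x : X | x.1 (e 0) = false} := by
      intro h hh
      have h4 : h = y (φ k0) ∨ h ∈ (F (φ k0)).1 := (hk0 k0 le_rfl).1 hh
      have h5 : h = y (φ (k0 + 1)) ∨ h ∈ (F (φ (k0 + 1))).1 :=
        (hk0 (k0 + 1) (Nat.le_succ _)).1 hh
      rcases h4 with h4 | h4
      · rcases h5 with h5 | h5
        · exact absurd (h4.symm.trans h5) (hyne _ _ (hφ (Nat.lt_succ_self k0)).ne)
        · exact heF 0 _ h h5
      · exact heF 0 _ h h4
    have hb := hlim' _ ⟨hVopen, hHV⟩
    obtain ⟨k, hk⟩ := hb.exists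
    have h6 : (y (φ k)).1 (e 0) = false := hk.2 (mem_insert _ _)
    rw [hy0] at h6
    exact absurd h6 (by decide)

/-- **Theorem.** There is a (Tychonoff, in particular `T₁`) space which is not selectively highly
divergent although its Pixley-Roy hyperspace is. -/
theorem result : ∃ (X : Type) (_ : TopologicalSpace X), T1Space X ∧ T35Space X ∧
    SHD (PR X) ∧ ¬ SHD X :=
  ⟨X, inferInstance, inferInstance, inferInstance, SHD_PR, not_SHD⟩

end Pool.Agent.Results.MP_f85c9e_gt.NotDescending
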